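import Pool.Agent.Helper5.ET.Defs
import Pool.Agent.Helper75.T4.Primes

/-!
# T4' (MP_12a1af), block C1: the number of admissible triples of primes
-/

namespace Pool.Agent.Helper39.ET

open Finset Pool.Agent.Helper5.ET Pool.Agent.Helper27.T4

theorem wof_pos {y : ℕ} (hy : 2 ≤ y) : 0 < wof y := by
  unfold wof
  have h1 : 0 < Nat.sqrt y := Nat.sqrt_pos.2 (by omega)
  have h2 : 0 < Nat.log 2 y := Nat.log_pos (by norm_num) hy
  positivity

theorem bb_ge (k : ℕ) : 2 ^ 64 ≤ bb k := by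
  induction k with
  | zero => exact le_rfl
  | succ k ih =>
    show 2 ^ 64 ≤ bb k + (bb k / (2 * wof (bb k)) + 1) * wof (bb k)
    exact ih.trans (Nat.le_add_right _ _)

theorem bb_two_le (k : ℕ) : 2 ≤ bb k := le_trans (by norm_num) (bb_ge k)

theorem bb_strictMono : StrictMono bb := by
  apply strictMono_nat_of_lt_succ
  intro k
  show bb k < bb k + (bb k / (2 * wof (bb k)) + 1) * wof (bb k)
  have h := wof_pos (bb_two_le k)
  have : 0 < (bb k / (2 * wof (bb k)) + 1) * wof (bb k) := Nat.mul_pos (Nat.succ_pos _) h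
  omega

theorem era_bb (k : ℕ) : era (bb k) = k := by
  unfold era
  rw [Nat.findGreatest_eq_iff]
  refine ⟨bb_strictMono.le_apply, fun _ => le_rfl, ?_⟩
  intro n hn _ h
  exact absurd (bb_strictMono hn) (not_lt.2 h)

theorem gap_pos (y : ℕ) : 0 < gap y := wof_pos (bb_two_le _)

theorem tau_strictMono : StrictMono tau := by
  apply strictMono_nat_of_lt_succ
  intro c
  show tau c < tau c + gap (tau c)
  have := gap_pos (tau c)
  omega

theorem own_bb (f : Fin 3) : own (bb f.val) = f := by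
  ext
  show era (bb f.val) % 3 = f.val
  rw [era_bb]
  exact Nat.mod_eq_of_lt f.2

theorem cnt_le (f : Fin 3) (j : ℕ) : cnt f j ≤ j := by
  unfold cnt
  exact (card_filter_le _ _).trans (card_range j).le

theorem cnt_pos (f : Fin 3) {j : ℕ} (hj : bb 2 < j) : 1 ≤ cnt f j := by
  unfold cnt
  apply Finset.card_pos.2
  refine ⟨bb f.val, ?_⟩
  rw [mem_filter, mem_range]
  refine ⟨lt_of_le_of_lt (bb_strictMono.monotone (by have := f.2; omega)) hj, own_bb f⟩

theorem sl_ge (s : ℕ) : s / 2 ≤ sl s := tau_strictMono.le_apply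

theorem log_pr_le (f : Fin 3) : Real.log (pr f) ≤ 14 := by
  have h1 : (pr f : ℝ) ≤ (2 : ℝ) ^ (20 : ℕ) := by
    fin_cases f <;> (simp only [pr]; norm_num)
  have h0 : (0 : ℝ) < pr f := by exact_mod_cast (pr_prime f).pos
  calc Real.log (pr f) ≤ Real.log ((2 : ℝ) ^ (20 : ℕ)) := Real.log_le_log h0 h1
    _ = 20 * Real.log 2 := by rw [Real.log_pow]; norm_num
    _ ≤ 14 := by
      have := Real.log_two_lt_d9
      linarith

theorem pr_ge (f : Fin 3) : 2 ^ 14 ≤ pr f := by
  fin_cases f <;> (simp only [pr]; norm_num)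

/-- one family -/
theorem card_one (f : Fin 3) {l : ℕ} (hl : bb 2 < l) :
    Real.sqrt ((pr f : ℝ) ^ cnt f l) / (672 * l) ≤
      (((range (pr f ^ cnt f l)).filter
        (fun y => y.Prime ∧ y.Coprime (pr f) ∧ y ^ 2 < pr f ^ cnt f l)).card : ℝ) := by
  have hl0 : (0 : ℝ) < l := by
    have : 0 < l := by omega
    exact_mod_cast this
  have hcnt := cnt_pos f hl
  have hset : Pool.Agent.Helper75.T4.PX (pr f) (cnt f l) ⊆ (range (pr f ^ cnt f l)).filter
      (fun y => y.Prime ∧ y.Coprime (pr f) ∧ y ^ 2 < pr f ^ cnt f l) := by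
    intro y hy
    unfold Pool.Agent.Helper75.T4.PX at hy
    rw [mem_filter] at hy ⊢
    exact ⟨hy.1, hy.2.1, (Nat.coprime_primes hy.2.1 (pr_prime f)).2 hy.2.2.1, hy.2.2.2⟩
  have h1 := Pool.Agent.Helper75.T4.card_PX_ge (pr f) (cnt f l) (pr_prime f).two_le
    (le_trans (pr_ge f) (Nat.le_self_pow (by omega) _))
  have h2 : ((Pool.Agent.Helper75.T4.PX (pr f) (cnt f l)).card : ℝ) ≤
      (((range (pr f ^ cnt f l)).filter
        (fun y => y.Prime ∧ y.Coprime (pr f) ∧ y ^ 2 < pr f ^ cnt f l)).card : ℝ) := by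
    exact_mod_cast card_le_card hset
  have h3 : (cnt f l : ℝ) * Real.log (pr f) ≤ l * 14 := by
    have h4 : (cnt f l : ℝ) ≤ l := by exact_mod_cast cnt_le f l
    have h5 : 0 ≤ Real.log (pr f) := Real.log_natCast_nonneg _
    have h6 := log_pr_le f
    gcongr
  refine le_trans ?_ h2
  rw [div_le_iff₀ (by positivity)]
  refine h1.trans ?_
  have h7 : (0 : ℝ) ≤ ((Pool.Agent.Helper75.T4.PX (pr f) (cnt f l)).card : ℝ) := by positivity
  calc 48 * ((cnt f l : ℝ) * Real.log (pr f)) *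
        ((Pool.Agent.Helper75.T4.PX (pr f) (cnt f l)).card : ℝ)
      ≤ 48 * (l * 14) * ((Pool.Agent.Helper75.T4.PX (pr f) (cnt f l)).card : ℝ) := by
        gcongr
    _ = ((Pool.Agent.Helper75.T4.PX (pr f) (cnt f l)).card : ℝ) * (672 * l) := by ring

/-- Block C1: the number of admissible triples of primes. -/
theorem card_XX_ge : ∃ (c : ℝ) (s0 : ℕ), 0 < c ∧ ∀ s ≥ s0,
    c * Real.sqrt (Nj (sl s)) / (sl s : ℝ) ^ 3 ≤ ((XX s).card : ℝ) := by
  refine ⟨(1 / 672) ^ 3, 2 * (bb 2 + 1), by positivity, ?_⟩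
  intro s hs
  have hl : bb 2 < sl s := by
    have h1 := sl_ge s
    omega
  have hl0 : (0 : ℝ) < sl s := by
    have : 0 < sl s := by omega
    exact_mod_cast this
  have hN : Real.sqrt (Nj (sl s)) = ∏ f : Fin 3, Real.sqrt ((pr f : ℝ) ^ cnt f (sl s)) := by
    unfold Nj NN av
    push_cast
    rw [Fin.prod_univ_three, Fin.prod_univ_three, Real.sqrt_mul (by positivity),
      Real.sqrt_mul (by positivity)]
  have hX : ((XX s).card : ℝ) = ∏ f : Fin 3, (((range (pr f ^ cnt f (sl s))).filter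
        (fun y => y.Prime ∧ y.Coprime (pr f) ∧ y ^ 2 < pr f ^ cnt f (sl s))).card : ℝ) := by
    unfold XX
    rw [Fintype.card_piFinset]
    push_cast
    rfl
  rw [hN, hX]
  calc (1 / 672) ^ 3 * (∏ f : Fin 3, Real.sqrt ((pr f : ℝ) ^ cnt f (sl s))) / (sl s : ℝ) ^ 3
      = ∏ f : Fin 3, (Real.sqrt ((pr f : ℝ) ^ cnt f (sl s)) / (672 * sl s)) := by
        rw [Fin.prod_univ_three, Fin.prod_univ_three]
        field_simp
    _ ≤ _ := by
        apply Finset.prod_le_prod
        · intro f _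
          positivity
        · intro f _
          exact card_one f hl

end Pool.Agent.Helper39.ET
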