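import Pool.Agent.Helper3.M.Defs
import Pool.Agent.Helper27.T4.Phase
import Pool.Agent.Helper97.ET.Cnt

/-!
# Block M (A): the facts about the orders (all fields except the size field `grow`)
-/

namespace Pool.Agent.Helper39.ET.MesoA

open Finset Pool.Agent.Helper27.T4 Pool.Agent.Helper5.ET Pool.Agent.Helper3.M

theorem se_le (s : ℕ) : se s ≤ sl s + 4 * sg s := by
  have h1 := se_lt_sk s
  have h2 := sk_add_le_succ s
  have h3 := sk_succ_le s
  omega

theorem se_le' (s : ℕ) : 1000 * (se s - sl s) ≤ sl s := by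
  have h1 := se_le s
  have h2 := sg_le s
  omega

theorem sl_lt {s s' : ℕ} (h : s' + 2 ≤ s) : sl s' < sl s := by
  have h1 := sl_add_le h
  have h2 : 0 < sg s' := gap_pos _
  omega

/-- if the order at `l` is the order of the era, then the era goes on for a long time -/
theorem era_long {l : ℕ} (h0 : bb 0 ≤ l) (h : ordK l = era l) : l < 20 * (bb (era l + 1) - l) := by
  by_contra hc
  have h1 := (before_border (era_spec l h0).2 (by omega)).2.1
  omega

theorem mem_Pg {s s' : ℕ} {f : Fin 3} : f ∈ Pg s s' ↔ cnt f (sl s') < cnt f (sl s) := by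
  simp [Pg]

theorem mem_RR {s s' : ℕ} {f : Fin 3} :
    f ∈ RR s s' ↔ f ∉ Pg s s' ∧ ¬ Disjoint (pre (sl s) f) (Pg s s') := by
  simp [RR]

theorem mem_RR' {s s' : ℕ} {f : Fin 3} :
    f ∈ RR' s s' ↔ f ∉ Pg s s' ∧ ¬ Disjoint (pre (sl s') f) (Pg s s') := by
  simp [RR']

section same

variable {s s' : ℕ} (h2 : s' + 2 ≤ s) (he : era (sl s') = era (sl s))

include h2 he

theorem Pg_same : Pg s s' = {fam (era (sl s))} := by
  ext f
  rw [mem_Pg, cnt_same_era (sl_lt h2).le he f, mem_singleton]
  have := sl_lt h2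
  split_ifs with hf
  · simp only [hf, iff_true]
    omega
  · simp [hf]

theorem RR_same {f : Fin 3} : f ∈ RR s s' ↔ f ≠ fam (era (sl s)) ∧
    fam (era (sl s)) ∈ pre (sl s) f := by
  rw [mem_RR, Pg_same h2 he, mem_singleton, Finset.disjoint_singleton_right, not_not]

theorem RR'_same {f : Fin 3} : f ∈ RR' s s' ↔ f ≠ fam (era (sl s)) ∧
    fam (era (sl s)) ∈ pre (sl s') f := by
  rw [mem_RR', Pg_same h2 he, mem_singleton, Finset.disjoint_singleton_right, not_not]

end same

/-- the three families are different -/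
theorem ne12 (k : ℕ) : fam (k + 1) ≠ fam (k + 2) := fam_ne_succ (k + 1)

/-! ### `pre` in terms of the era -/

section pre

variable {y k : ℕ}

theorem A0 (h : ordK y = k) : pre y (fam k) = ∅ := by
  have := pre_head y
  rwa [h] at this

theorem A2 (h : ordK y = k) : pre y (fam (k + 2)) = {fam k} := by
  have := pre_second y
  rwa [h] at this

theorem A1 (h : ordK y = k) (hi : ¬ iso y) : pre y (fam (k + 1)) = {fam k, fam (k + 2)} := by
  have := pre_third hi
  rwa [h] at this

theorem A1i (h : ordK y = k) (hi : iso y) : pre y (fam (k + 1)) = ∅ := by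
  have := pre_third_iso hi
  rwa [h] at this

theorem B1 (h : ordK y = k + 1) : pre y (fam (k + 1)) = ∅ := A0 h

theorem B0 (h : ordK y = k + 1) : pre y (fam k) = {fam (k + 1)} := by
  have := A2 h
  rwa [show k + 1 + 2 = k + 3 from rfl, fam_add_three] at this

theorem B2 (h : ordK y = k + 1) (hi : ¬ iso y) :
    pre y (fam (k + 2)) = {fam (k + 1), fam k} := by
  have := A1 h hi
  rwa [show k + 1 + 2 = k + 3 from rfl, fam_add_three] at this

end pre

/-- static families in one era -/
theorem cnt_stat {s s' : ℕ} (h2 : s' + 2 ≤ s) (he : era (sl s') = era (sl s)) {f : Fin 3}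
    (hf : f ≠ fam (era (sl s)))
    (hf2 : ordK (sl s) = era (sl s) ∨ f ≠ fam (era (sl s) + 1)) :
    cnt f (se s) = cnt f (sl s') := by
  have hl := sl_lt h2
  have h0 : bb 0 ≤ sl s := tau_ge _
  have hse := se_le' s
  have hsl := sl_lt_se s
  obtain ⟨e1, e2⟩ := era_spec (sl s) h0
  apply cnt_eq_of f (by omega)
  intro t ht1 ht2 hown
  rw [own_eq] at hown
  have e3 : era (sl s) ≤ era t := by rw [← he]; exact era_mono ht1
  have e4 := era_length (era (sl s) + 1)
  have e5 : era t ≤ era (sl s) + 1 := by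
    by_contra hc
    have : bb (era (sl s) + 1 + 1) ≤ t := by
      have h3 := (era_spec t (by have := tau_ge (s' / 2); unfold sl at ht1; omega)).1
      exact le_trans (bb_strictMono.monotone (by omega)) h3
    have e6 := bb_step (era (sl s) + 1)
    omega
  rcases Nat.lt_or_ge (era (sl s)) (era t) with h3 | h3
  · have h4 : era t = era (sl s) + 1 := by omega
    rw [h4] at hown
    rcases hf2 with hf2 | hf2
    · have h5 := era_long h0 hf2
      have h6 : bb (era (sl s) + 1) ≤ t := by
        have h3 := (era_spec t (by have := tau_ge (s' / 2); unfold sl at ht1; omega)).1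
        rwa [h4] at h3
      omega
    · exact hf2 hown.symm
  · have h4 : era t = era (sl s) := by omega
    rw [h4] at hown
    exact hf hown.symm

/-- the same era: everything from the tables of `pre` -/
theorem same {s s' : ℕ} (h2 : s' + 2 ≤ s) (he : era (sl s') = era (sl s))
    (hgrow : ∀ f, cnt f (se s) ≤ 2 * cnt f (sl s') + 1)
    (hP : (ordK (sl s') = ordK (sl s) ∧ (iso (sl s') ↔ iso (sl s))) ∨
      (ordK (sl s') = era (sl s) ∧ ordK (sl s) = era (sl s) ∧ ¬ iso (sl s') ∧ iso (sl s)) ∨
      (ordK (sl s') = era (sl s) ∧ ordK (sl s) = era (sl s) + 1 ∧ iso (sl s') ∧ ¬ iso (sl s))) :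
    Meso s s' (sl s) (fam (era (sl s))) (fam (era (sl s) + 1)) := by
  have hl := sl_lt h2
  have hPg := Pg_same h2 he
  have n1 := fam_ne_succ (era (sl s))
  have n2 := fam_ne_succ2 (era (sl s))
  have n3 := ne12 (era (sl s))
  have mR := fun f => RR_same h2 he (f := f)
  have mR' := fun f => RR'_same h2 he (f := f)
  have hstat : ∀ f ∈ RR' s s', cnt f (se s) = cnt f (sl s') := by
    intro f hf
    rw [mR'] at hf
    refine cnt_stat h2 he hf.1 ?_
    rcases ordK_cases (sl s) with h | h
    · exact Or.inl h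
    · right
      rintro rfl
      rcases hP with ⟨h3, -⟩ | ⟨-, h3, -⟩ | ⟨h3, -, h4, -⟩
      · rw [B1 (h3.trans h)] at hf
        exact absurd hf.2 (notMem_empty _)
      · omega
      · rw [A1i h3 h4] at hf
        exact absurd hf.2 (notMem_empty _)
  generalize hk : era (sl s) = k at *
  have tabs : ((ordK (sl s) = k ∧ ordK (sl s') = k) ∨ (ordK (sl s) = k + 1 ∧
      ordK (sl s') = k + 1 ∧ ¬ iso (sl s) ∧ ¬ iso (sl s')) ∨
      (ordK (sl s) = k + 1 ∧ ordK (sl s') = k ∧ ¬ iso (sl s) ∧ iso (sl s'))) := by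
    rcases hP with ⟨h3, h4⟩ | ⟨h3, h4, -, -⟩ | ⟨h3, h4, h5, h6⟩
    · rcases ordK_cases (sl s) with h | h
      · rw [hk] at h
        exact Or.inl ⟨h, h3.trans h⟩
      · rw [hk] at h
        have h7 : ¬ iso (sl s) := by
          intro h8
          have := ordK_of_iso h8
          omega
        exact Or.inr (Or.inl ⟨h, h3.trans h, h7, fun h8 => h7 (h4.1 h8)⟩)
    · exact Or.inl ⟨h4, h3⟩
    · exact Or.inr (Or.inr ⟨h4, h3, h6, h5⟩)
  have hii : iso (sl s') → iso (sl s) ∨ ordK (sl s) = k + 1 := by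
    intro hi
    rcases hP with ⟨h3, h4⟩ | ⟨h3, h4, h5, -⟩ | ⟨h3, h4, h5, h6⟩
    · exact Or.inl (h4.1 hi)
    · exact absurd hi h5
    · exact Or.inr h4
  refine
    { hss := h2
      lb := hl
      bl := le_rfl
      own1 := fun t h3 h4 => ?_
      own0 := fun t h3 h4 => absurd h4 (by omega)
      ne := n1.symm
      node := Or.inl rfl
      rank := ?_
      rank01 := fun h => absurd h (lt_irrefl _)
      sub := ?_
      nonempty := ?_
      preR := ?_
      preR' := ?_
      statR := hstat
      off := ?_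
      grow := hgrow }
  · rw [← hk]
    exact own_between (by rw [he, hk]) h3 h4.le
  · -- rank
    intro f g hg
    rw [mem_union] at hg
    rcases hg with hg | hg
    · exact ((mem_pre _ _ _).1 hg).2
    · rcases tabs with ⟨h3, h4⟩ | ⟨h3, h4, -, -⟩ | ⟨h3, h4, h5, h6⟩
      · have := ((mem_pre _ _ _).1 hg).2
        rwa [h4, ← h3] at this
      · have := ((mem_pre _ _ _).1 hg).2
        rwa [h4, ← h3] at this
      · rcases fam_cases k f with rfl | rfl | rfl
        · rw [A0 h4] at hg
          exact absurd hg (notMem_empty _)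
        · rw [A1i h4 h6] at hg
          exact absurd hg (notMem_empty _)
        · rw [A2 h4, mem_singleton] at hg
          rw [hg, h3, rk_prev, show k + 2 = k + 1 + 1 from rfl, rk_next]
          norm_num
  · -- sub
    intro f hf
    rw [mR] at hf
    rw [mR']
    refine ⟨hf.1, ?_⟩
    rcases fam_cases k f with rfl | rfl | rfl
    · exact absurd rfl hf.1
    · rcases tabs with ⟨h3, h4⟩ | ⟨h3, h4, -, -⟩ | ⟨h3, h4, h5, h6⟩
      · by_cases hi : iso (sl s)
        · rw [A1i h3 hi] at hf
          exact absurd hf.2 (notMem_empty _)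
        · have hi' : ¬ iso (sl s') := by
            intro h7
            rcases hii h7 with h8 | h8
            · exact hi h8
            · omega
          rw [A1 h4 hi']
          simp
      · rw [B1 h3] at hf
        exact absurd hf.2 (notMem_empty _)
      · rw [B1 h3] at hf
        exact absurd hf.2 (notMem_empty _)
    · rcases tabs with ⟨h3, h4⟩ | ⟨h3, h4, h5, h6⟩ | ⟨h3, h4, h5, h6⟩
      · rw [A2 h4]; simp
      · rw [B2 h4 h6]; simp
      · rw [A2 h4]; simp
  · -- nonempty
    refine ⟨fam (k + 2), ?_⟩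
    rw [mR]
    refine ⟨n2.symm, ?_⟩
    rcases tabs with ⟨h3, h4⟩ | ⟨h3, h4, h5, h6⟩ | ⟨h3, h4, h5, h6⟩
    · rw [A2 h3]; simp
    · rw [B2 h3 h5]; simp
    · rw [B2 h3 h5]; simp
  · -- preR
    intro f hf
    rw [mR] at hf
    rw [hPg, singleton_subset_iff]
    exact hf.2
  · intro f hf
    rw [mR'] at hf
    rw [hPg, singleton_subset_iff]
    exact hf.2
  · -- off
    intro f hf g hg
    rw [mR']
    rintro ⟨hg1, hg2⟩
    rw [mR'] at hf
    rw [mem_union] at hg
    rcases fam_cases k f with rfl | rfl | rfl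
    · -- the growing family
      rcases tabs with ⟨h3, h4⟩ | ⟨h3, h4, h5, h6⟩ | ⟨h3, h4, h5, h6⟩
      · rw [A0 h3, A0 h4] at hg
        simp at hg
      · rw [B0 h3, B0 h4] at hg
        simp only [mem_singleton, or_self] at hg
        rw [hg, B1 h4] at hg2
        exact notMem_empty _ hg2
      · rw [B0 h3, A0 h4] at hg
        simp only [mem_singleton, notMem_empty, or_false] at hg
        rw [hg, A1i h4 h6] at hg2
        exact notMem_empty _ hg2
    · rcases tabs with ⟨h3, h4⟩ | ⟨h3, h4, h5, h6⟩ | ⟨h3, h4, h5, h6⟩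
      · by_cases hi' : iso (sl s')
        · rcases hii hi' with h8 | h8
          · rw [A1i h3 h8, A1i h4 hi'] at hg
            simp at hg
          · omega
        · apply hf
          refine ⟨n1.symm, ?_⟩
          rw [A1 h4 hi']; simp
      · rw [B1 h3, B1 h4] at hg
        simp at hg
      · rw [B1 h3, A1i h4 h6] at hg
        simp at hg
    · exfalso
      apply hf
      refine ⟨n2.symm, ?_⟩
      rcases tabs with ⟨h3, h4⟩ | ⟨h3, h4, h5, h6⟩ | ⟨h3, h4, h5, h6⟩
      · rw [A2 h4]; simp
      · rw [B2 h4 h6]; simp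
      · rw [A2 h4]; simp

/-- a border between the two positions -/
theorem border {s s' : ℕ} (h2 : s' + 2 ≤ s) (he : era (sl s') + 1 = era (sl s))
    (hgrow : ∀ f, cnt f (se s) ≤ 2 * cnt f (sl s') + 1)
    (hK' : ordK (sl s') = era (sl s)) (hK : ordK (sl s) = era (sl s))
    (hi' : ¬ iso (sl s')) (hi : ¬ iso (sl s)) :
    Meso s s' (bb (era (sl s))) (fam (era (sl s) + 2)) (fam (era (sl s))) := by
  have hl := sl_lt h2
  have h0 : bb 0 ≤ sl s := tau_ge _
  have h0' : bb 0 ≤ sl s' := tau_ge _
  have hse := se_le' s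
  have hsl := sl_lt_se s
  obtain ⟨e1, e2⟩ := era_spec (sl s) h0
  obtain ⟨e1', e2'⟩ := era_spec (sl s') h0'
  have hlong := era_long h0 hK
  have hf1 : fam (era (sl s')) = fam (era (sl s) + 2) := by
    rw [← he, show era (sl s') + 1 + 2 = era (sl s') + 3 from rfl, fam_add_three]
  rw [he] at e2'
  generalize hk : era (sl s) = k at *
  have n1 := fam_ne_succ k
  have n2 := fam_ne_succ2 k
  have n3 := ne12 k
  have own1 : ∀ t, sl s' ≤ t → t < bb k → own t = fam (k + 2) := by
    intro t h3 h4
    rw [own_eq, ← hf1]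
    congr 1
    have h5 := era_mono h3
    have h6 : era t < k := by
      by_contra hc
      have h7 := (era_spec t (le_trans h0' h3)).1
      have h8 := bb_strictMono.monotone (not_lt.1 hc)
      omega
    omega
  have own0 : ∀ t, bb k ≤ t → t < bb (k + 1) → own t = fam k := fun t h3 h4 => own_of_mem h3 h4
  have hcnt : ∀ f, f ≠ fam k → f ≠ fam (k + 2) → ∀ y, sl s' ≤ y → y < bb (k + 1) →
      cnt f y = cnt f (sl s') := by
    intro f hf1 hf2 y hy1 hy2
    apply cnt_eq_of f hy1
    intro t h3 h4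
    rcases Nat.lt_or_ge t (bb k) with h5 | h5
    · rw [own1 t h3 h5]; exact hf2.symm
    · rw [own0 t h5 (by omega)]; exact hf1.symm
  have mPg : ∀ f, f ∈ Pg s s' ↔ f = fam (k + 2) ∨ (f = fam k ∧ bb k < sl s) := by
    intro f
    rw [mem_Pg]
    rcases fam_cases k f with rfl | rfl | rfl
    · have h3 : cnt (fam k) (bb k) = cnt (fam k) (sl s') := by
        apply cnt_eq_of _ e2'.le
        intro t h3 h4
        rw [own1 t h3 h4]
        exact n2.symm
      have h4 : cnt (fam k) (sl s) = cnt (fam k) (bb k) + (sl s - bb k) := by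
        apply cnt_add_of _ e1
        intro t h5 h6
        exact own0 t h5 (by omega)
      constructor
      · intro h5
        exact Or.inr ⟨rfl, by omega⟩
      · rintro (h5 | h5)
        · exact absurd h5 n2
        · omega
    · have h3 := hcnt (fam (k + 1)) n1.symm n3 (sl s) hl.le e2
      constructor
      · intro h5; omega
      · rintro (h5 | h5)
        · exact absurd h5 n3
        · exact absurd h5.1 n1.symm
    · have h3 : cnt (fam (k + 2)) (bb k) = cnt (fam (k + 2)) (sl s') + (bb k - sl s') :=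
        cnt_add_of _ e2'.le own1
      have h4 : cnt (fam (k + 2)) (sl s) = cnt (fam (k + 2)) (bb k) := by
        apply cnt_eq_of _ e1
        intro t h5 h6
        rw [own0 t h5 (by omega)]
        exact n2
      constructor
      · intro _; exact Or.inl rfl
      · intro _; omega
  have hpre : pre (sl s') = pre (sl s) := pre_congr (hK'.trans hK.symm) (iff_of_false hi' hi)
  have t0 := A0 hK
  have t1 := A1 hK hi
  have t2 := A2 hK
  have mR : ∀ f, f ∈ RR s s' ↔ f = fam (k + 1) := by
    intro f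
    rw [mem_RR]
    rcases fam_cases k f with rfl | rfl | rfl
    · rw [t0]
      constructor
      · intro h; exact absurd (disjoint_empty_left _) h.2
      · intro h; exact absurd h n1
    · refine ⟨fun _ => rfl, fun _ => ⟨?_, ?_⟩⟩
      · rw [mPg]
        rintro (h | h)
        · exact n3 h
        · exact n1.symm h.1
      · rw [Finset.not_disjoint_iff]
        refine ⟨fam (k + 2), ?_, ?_⟩
        · rw [t1]; simp
        · rw [mPg]; exact Or.inl rfl
    · constructor
      · intro h
        exact absurd ((mPg _).2 (Or.inl rfl)) h.1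
      · intro h; exact absurd h n3.symm
  have mR' : ∀ f, f ∈ RR' s s' ↔ f = fam (k + 1) := by
    intro f
    rw [← mR, mem_RR', mem_RR, hpre]
  have hsub : Pg s s' ⊆ pre (sl s) (fam (k + 1)) := by
    intro g hg
    rw [mPg] at hg
    rw [t1]
    rcases hg with rfl | ⟨rfl, -⟩ <;> simp
  refine
    { hss := h2
      lb := e2'
      bl := e1
      own1 := own1
      own0 := fun t h3 h4 => own0 t h3 (by omega)
      ne := n2
      node := Or.inr ?_
      rank := ?_
      rank01 := ?_
      sub := ?_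
      nonempty := ⟨fam (k + 1), (mR _).2 rfl⟩
      preR := ?_
      preR' := ?_
      statR := ?_
      off := ?_
      grow := hgrow }
  · obtain ⟨c, hc⟩ := bb_node k
    exact ⟨c, hc.symm⟩
  · intro f g hg
    rw [hpre, union_self] at hg
    exact ((mem_pre _ _ _).1 hg).2
  · intro _
    rw [hK, rk_self, rk_next2]
    norm_num
  · intro f hf
    rw [mR] at hf
    rw [mR', hf]
  · intro f hf
    rw [mR] at hf
    rw [hf]; exact hsub
  · intro f hf
    rw [mR'] at hf
    rw [hf, hpre]; exact hsub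
  · intro f hf
    rw [mR'] at hf
    rw [hf]
    exact hcnt _ n1.symm n3 _ (by omega) (by omega)
  · intro f hf g hg
    rw [mR'] at hf ⊢
    rw [hpre, union_self] at hg
    rcases fam_cases k f with rfl | rfl | rfl
    · rw [t0] at hg
      exact absurd hg (notMem_empty _)
    · exact absurd rfl hf
    · rw [t2, mem_singleton] at hg
      rw [hg]; exact n1

/-- the size field -/
theorem grow_of {s s' y0 : ℕ} (h2 : s' + 2 ≤ s)
    (hy : ∀ y ≥ y0, ∀ f : Fin 3, (y : ℝ) / 6 ≤ cnt f y ∧ (cnt f y : ℝ) ≤ y / 2)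
    (h0 : y0 ≤ sl s') (h : 100 * (sl s - sl s') ≤ sl s) (f : Fin 3) :
    cnt f (se s) ≤ 2 * cnt f (sl s') + 1 := by
  have hl := sl_lt h2
  have hse := se_le' s
  have hsl := sl_lt_se s
  have h1 := (hy _ h0 f).1
  have h3 : sl s' ≤ 6 * cnt f (sl s') := by
    have h4 : ((sl s' : ℕ) : ℝ) ≤ ((6 * cnt f (sl s') : ℕ) : ℝ) := by
      push_cast
      linarith
    exact_mod_cast h4
  have h5 := cnt_sub f (y := sl s') (z := se s) (by omega)
  have h6 : ((Finset.Ico (sl s') (se s)).filter (fun t => own t = f)).card ≤ se s - sl s' := by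
    refine (card_filter_le _ _).trans ?_
    rw [Nat.card_Ico]
  omega

/-- (A) of block M -/
theorem meso_facts : ∃ s0 : ℕ, ∀ s s' : ℕ, s0 ≤ s' → s' + 2 ≤ s →
    (sl s : ℝ) - sl s' ≤ 1 / 100 * sl s → ∃ b f1 f0, Meso s s' b f1 f0 := by
  obtain ⟨y0, hy⟩ := Pool.Agent.Helper97.ET.cnt_ge
  refine ⟨2 * y0, fun s s' hs' h2 h => ?_⟩
  have hl := sl_lt h2
  have hy0 : y0 ≤ sl s' := by
    have h3 : s' / 2 ≤ tau (s' / 2) := tau_strictMono.le_apply
    have : y0 ≤ s' / 2 := by omega
    exact this.trans h3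
  have h' : 100 * (sl s - sl s') ≤ sl s := by
    have h4 : ((100 * (sl s - sl s') : ℕ) : ℝ) ≤ ((sl s : ℕ) : ℝ) := by
      rw [Nat.cast_mul, Nat.cast_sub hl.le]
      push_cast
      linarith
    exact_mod_cast h4
  have hgrow := grow_of h2 hy hy0 h'
  rcases phase_cases (l := sl s) (l' := sl s') (tau_ge _) hl.le (by omega) with h3 | h3 | h3 | h3
  · exact ⟨_, _, _, same h2 h3.1 hgrow (Or.inl h3.2)⟩
  · exact ⟨_, _, _, same h2 h3.1 hgrow (Or.inr (Or.inl h3.2))⟩
  · exact ⟨_, _, _, same h2 h3.1 hgrow (Or.inr (Or.inr h3.2))⟩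
  · exact ⟨_, _, _, border h2 h3.1 hgrow h3.2.1 h3.2.2.1 h3.2.2.2.1 h3.2.2.2.2⟩

end Pool.Agent.Helper39.ET.MesoA
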